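import Pool.Agent.BSE.Stmts5
import Pool.Agent.Helper9_BSE.MO2

/-!
# BSE, row MO5: mixed moments of order at most three of a column
-/

open MeasureTheory Matrix Finset
open scoped ComplexConjugate

namespace Pool.Agent.BSE.H34

open Pool.Agent.Helper64_FR

variable {n : ℕ}

/-- the linear form `∑ |A_jb|² a_j` -/
noncomputable def X (B : Finset (Fin n)) (b : Fin n) (a : Fin n → ℝ) (A : UB B) : ℝ :=
  ∑ j ∈ B, ‖((A : UU n) : Matrix (Fin n) (Fin n) ℂ) j b‖ ^ 2 * a j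

theorem cont_X (B : Finset (Fin n)) (b : Fin n) (a : Fin n → ℝ) : Continuous (X B b a) := by
  unfold X
  refine continuous_finsetSum _ fun j _ => ?_
  exact (H9.cont_sq B j b).mul continuous_const

theorem X_add (B : Finset (Fin n)) (b : Fin n) (a a' : Fin n → ℝ) (A : UB B) :
    X B b (fun j => a j + a' j) A = X B b a A + X B b a' A := by
  unfold X
  rw [← Finset.sum_add_distrib]
  exact Finset.sum_congr rfl fun j _ => by ring

theorem X_one (B : Finset (Fin n)) {b : Fin n} (hb : b ∈ B) (a : Fin n → ℝ) (t : ℝ) (A : UB B) :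
    X B b (fun j => 1 + t * a j) A = 1 + t * X B b a A := by
  have h := H76.col_one B hb A
  unfold X
  have h2 : ∑ j ∈ B, ‖((A : UU n) : Matrix (Fin n) (Fin n) ℂ) j b‖ ^ 2 * (1 + t * a j) =
      ∑ j ∈ B, ‖((A : UU n) : Matrix (Fin n) (Fin n) ℂ) j b‖ ^ 2 +
        t * ∑ j ∈ B, ‖((A : UU n) : Matrix (Fin n) (Fin n) ℂ) j b‖ ^ 2 * a j := by
    rw [Finset.mul_sum, ← Finset.sum_add_distrib]
    exact Finset.sum_congr rfl fun j _ => by ring
  rw [h2, h]

theorem int_cont (B : Finset (Fin n)) {f : UB B → ℝ} (hf : Continuous f) :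
    Integrable f (haarB B) := H9.int_cont B hf

/-- expansion of the fourth moment of `1 + t X` -/
theorem expand (B : Finset (Fin n)) {b : Fin n} (hb : b ∈ B) (a : Fin n → ℝ) (t : ℝ) :
    ∫ A, X B b (fun j => 1 + t * a j) A ^ 4 ∂(haarB B) =
      1 + 4 * t * (∫ A, X B b a A ∂(haarB B)) + 6 * t ^ 2 * (∫ A, X B b a A ^ 2 ∂(haarB B)) +
        4 * t ^ 3 * (∫ A, X B b a A ^ 3 ∂(haarB B)) + t ^ 4 * (∫ A, X B b a A ^ 4 ∂(haarB B)) := by
  have := H76.haarB_prob B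
  have hc := cont_X B b a
  have h1 : ∀ A : UB B, X B b (fun j => 1 + t * a j) A ^ 4 =
      1 + 4 * t * X B b a A + 6 * t ^ 2 * X B b a A ^ 2 + 4 * t ^ 3 * X B b a A ^ 3 +
        t ^ 4 * X B b a A ^ 4 := by
    intro A
    rw [X_one B hb]
    ring
  rw [integral_congr_ae (Filter.Eventually.of_forall h1)]
  rw [integral_add (int_cont B (by fun_prop)) (int_cont B (by fun_prop)),
    integral_add (int_cont B (by fun_prop)) (int_cont B (by fun_prop)),
    integral_add (int_cont B (by fun_prop)) (int_cont B (by fun_prop)),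
    integral_add (int_cont B (by fun_prop)) (int_cont B (by fun_prop)),
    integral_const_mul, integral_const_mul, integral_const_mul, integral_const_mul,
    integral_const, probReal_univ, smul_eq_mul, mul_one]

/-- the numerator of `q4` at `1 + t a` -/
theorem q4_one (B : Finset (Fin n)) (a : Fin n → ℝ) (t : ℝ) :
    q4 B (fun j => 1 + t * a j) =
      (((B.card : ℝ) + t * ∑ j ∈ B, a j) ^ 4 + 6 * ((B.card : ℝ) + t * ∑ j ∈ B, a j) ^ 2 *
        ((B.card : ℝ) + 2 * t * (∑ j ∈ B, a j) + t ^ 2 * ∑ j ∈ B, a j ^ 2) +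
        3 * ((B.card : ℝ) + 2 * t * (∑ j ∈ B, a j) + t ^ 2 * ∑ j ∈ B, a j ^ 2) ^ 2 +
        8 * ((B.card : ℝ) + t * ∑ j ∈ B, a j) *
        ((B.card : ℝ) + 3 * t * (∑ j ∈ B, a j) + 3 * t ^ 2 * (∑ j ∈ B, a j ^ 2) +
          t ^ 3 * ∑ j ∈ B, a j ^ 3) +
        6 * ((B.card : ℝ) + 4 * t * (∑ j ∈ B, a j) + 6 * t ^ 2 * (∑ j ∈ B, a j ^ 2) +
          4 * t ^ 3 * (∑ j ∈ B, a j ^ 3) + t ^ 4 * ∑ j ∈ B, a j ^ 4)) /
      ((B.card : ℝ) * (B.card + 1) * (B.card + 2) * (B.card + 3)) := by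
  have h1 : ∑ j ∈ B, (1 + t * a j) = (B.card : ℝ) + t * ∑ j ∈ B, a j := by
    rw [Finset.sum_add_distrib, Finset.mul_sum, Finset.sum_const, nsmul_eq_mul, mul_one]
  have h2 : ∑ j ∈ B, (1 + t * a j) ^ 2 =
      (B.card : ℝ) + 2 * t * (∑ j ∈ B, a j) + t ^ 2 * ∑ j ∈ B, a j ^ 2 := by
    rw [Finset.mul_sum, Finset.mul_sum,
      show (B.card : ℝ) = ∑ j ∈ B, (1 : ℝ) by rw [Finset.sum_const, nsmul_eq_mul, mul_one],
      ← Finset.sum_add_distrib, ← Finset.sum_add_distrib]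
    exact Finset.sum_congr rfl fun j _ => by ring
  have h3 : ∑ j ∈ B, (1 + t * a j) ^ 3 =
      (B.card : ℝ) + 3 * t * (∑ j ∈ B, a j) + 3 * t ^ 2 * (∑ j ∈ B, a j ^ 2) +
        t ^ 3 * ∑ j ∈ B, a j ^ 3 := by
    rw [Finset.mul_sum, Finset.mul_sum, Finset.mul_sum,
      show (B.card : ℝ) = ∑ j ∈ B, (1 : ℝ) by rw [Finset.sum_const, nsmul_eq_mul, mul_one],
      ← Finset.sum_add_distrib, ← Finset.sum_add_distrib, ← Finset.sum_add_distrib]
    exact Finset.sum_congr rfl fun j _ => by ring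
  have h4 : ∑ j ∈ B, (1 + t * a j) ^ 4 =
      (B.card : ℝ) + 4 * t * (∑ j ∈ B, a j) + 6 * t ^ 2 * (∑ j ∈ B, a j ^ 2) +
        4 * t ^ 3 * (∑ j ∈ B, a j ^ 3) + t ^ 4 * ∑ j ∈ B, a j ^ 4 := by
    rw [Finset.mul_sum, Finset.mul_sum, Finset.mul_sum, Finset.mul_sum,
      show (B.card : ℝ) = ∑ j ∈ B, (1 : ℝ) by rw [Finset.sum_const, nsmul_eq_mul, mul_one],
      ← Finset.sum_add_distrib, ← Finset.sum_add_distrib, ← Finset.sum_add_distrib,
      ← Finset.sum_add_distrib]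
    exact Finset.sum_congr rfl fun j _ => by ring
  unfold q4
  rw [h1, h2, h3, h4]

/-- the pure moments -/
theorem pure (mo2 : MO2Stmt) (B : Finset (Fin n)) {b : Fin n} (hb : b ∈ B) (a : Fin n → ℝ) :
    ∫ A, X B b a A ∂(haarB B) = (∑ j ∈ B, a j) / B.card ∧
    ∫ A, X B b a A ^ 2 ∂(haarB B) =
      ((∑ j ∈ B, a j) ^ 2 + ∑ j ∈ B, a j ^ 2) / ((B.card : ℝ) * (B.card + 1)) ∧
    ∫ A, X B b a A ^ 3 ∂(haarB B) =
      ((∑ j ∈ B, a j) ^ 3 + 3 * (∑ j ∈ B, a j) * (∑ j ∈ B, a j ^ 2) + 2 * ∑ j ∈ B, a j ^ 3) /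
        ((B.card : ℝ) * (B.card + 1) * (B.card + 2)) := by
  have hβ : (0 : ℝ) < (B.card : ℝ) := by
    exact_mod_cast Finset.card_pos.2 ⟨b, hb⟩
  set β : ℝ := (B.card : ℝ) with hβdef
  set s1 := ∑ j ∈ B, a j with hs1
  set s2 := ∑ j ∈ B, a j ^ 2 with hs2
  set s3 := ∑ j ∈ B, a j ^ 3 with hs3
  set s4 := ∑ j ∈ B, a j ^ 4 with hs4
  set m1 := ∫ A, X B b a A ∂(haarB B) with hm1
  set m2 := ∫ A, X B b a A ^ 2 ∂(haarB B) with hm2
  set m3 := ∫ A, X B b a A ^ 3 ∂(haarB B) with hm3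
  set m4 := ∫ A, X B b a A ^ 4 ∂(haarB B) with hm4
  have key : ∀ t : ℝ, (1 + 4 * t * m1 + 6 * t ^ 2 * m2 + 4 * t ^ 3 * m3 + t ^ 4 * m4) *
      (β * (β + 1) * (β + 2) * (β + 3)) =
      ((β + t * s1) ^ 4 + 6 * (β + t * s1) ^ 2 * (β + 2 * t * s1 + t ^ 2 * s2) +
        3 * (β + 2 * t * s1 + t ^ 2 * s2) ^ 2 +
        8 * (β + t * s1) * (β + 3 * t * s1 + 3 * t ^ 2 * s2 + t ^ 3 * s3) +
        6 * (β + 4 * t * s1 + 6 * t ^ 2 * s2 + 4 * t ^ 3 * s3 + t ^ 4 * s4)) := by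
    intro t
    have h := mo2 n B b hb (fun j => 1 + t * a j)
    have h' : ∫ A, X B b (fun j => 1 + t * a j) A ^ 4 ∂(haarB B) =
      q4 B (fun j => 1 + t * a j) := h
    rw [expand B hb a t, q4_one B a t, eq_div_iff (by positivity)] at h'
    exact h'
  have k1 := key 1
  have k2 := key (-1)
  have k3 := key 2
  have k4 := key (-2)
  have k0 := key 0
  have e1 : 4 * m1 * (β * (β + 1) * (β + 2) * (β + 3)) =
      4 * ((β + 1) * (β + 2) * (β + 3)) * s1 := by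
    linear_combination (8 / 12 : ℝ) * k1 - (8 / 12 : ℝ) * k2 - (1 / 12 : ℝ) * k3 +
      (1 / 12 : ℝ) * k4
  have e2 : 6 * m2 * (β * (β + 1) * (β + 2) * (β + 3)) =
      6 * ((β + 2) * (β + 3)) * (s1 ^ 2 + s2) := by
    linear_combination (16 / 24 : ℝ) * k1 + (16 / 24 : ℝ) * k2 - (1 / 24 : ℝ) * k3 -
      (1 / 24 : ℝ) * k4 - (30 / 24 : ℝ) * k0
  have e3 : 4 * m3 * (β * (β + 1) * (β + 2) * (β + 3)) =
      4 * (β + 3) * (s1 ^ 3 + 3 * s1 * s2 + 2 * s3) := by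
    linear_combination (1 / 12 : ℝ) * k3 - (1 / 12 : ℝ) * k4 - (2 / 12 : ℝ) * k1 +
      (2 / 12 : ℝ) * k2
  have p1 : (0 : ℝ) < β + 1 := by linarith
  have p2 : (0 : ℝ) < β + 2 := by linarith
  have p3 : (0 : ℝ) < β + 3 := by linarith
  refine ⟨?_, ?_, ?_⟩
  · rw [eq_div_iff hβ.ne']
    have : (4 * ((β + 1) * (β + 2) * (β + 3))) * (m1 * β) =
        (4 * ((β + 1) * (β + 2) * (β + 3))) * s1 := by linear_combination e1
    exact mul_left_cancel₀ (by positivity) this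
  · rw [eq_div_iff (by positivity)]
    have : (6 * ((β + 2) * (β + 3))) * (m2 * (β * (β + 1))) =
        (6 * ((β + 2) * (β + 3))) * (s1 ^ 2 + s2) := by linear_combination e2
    exact mul_left_cancel₀ (by positivity) this
  · rw [eq_div_iff (by positivity)]
    have : (4 * (β + 3)) * (m3 * (β * (β + 1) * (β + 2))) =
        (4 * (β + 3)) * (s1 ^ 3 + 3 * s1 * s2 + 2 * s3) := by linear_combination e3
    exact mul_left_cancel₀ (by positivity) this

/-- second mixed moment by polarization -/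
theorem mix2 (B : Finset (Fin n)) (b : Fin n) (a a' : Fin n → ℝ) :
    ∫ A, X B b a A * X B b a' A ∂(haarB B) =
      (1 / 2) * (∫ A, X B b (fun j => a j + a' j) A ^ 2 ∂(haarB B) -
        ∫ A, X B b a A ^ 2 ∂(haarB B) - ∫ A, X B b a' A ^ 2 ∂(haarB B)) := by
  have hc := cont_X B b a
  have hc' := cont_X B b a'
  have hd := cont_X B b (fun j => a j + a' j)
  rw [← integral_sub (int_cont B (by fun_prop)) (int_cont B (by fun_prop)),
    ← integral_sub (int_cont B (by fun_prop)) (int_cont B (by fun_prop)),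
    ← integral_const_mul]
  refine integral_congr_ae (Filter.Eventually.of_forall fun A => ?_)
  simp only [X_add]
  ring

/-- third mixed moment by polarization -/
theorem mix3 (B : Finset (Fin n)) (b : Fin n) (a a' a'' : Fin n → ℝ) :
    ∫ A, X B b a A * X B b a' A * X B b a'' A ∂(haarB B) =
      (1 / 6) * (∫ A, X B b (fun j => a j + a' j + a'' j) A ^ 3 ∂(haarB B) -
        ∫ A, X B b (fun j => a j + a' j) A ^ 3 ∂(haarB B) -
        ∫ A, X B b (fun j => a j + a'' j) A ^ 3 ∂(haarB B) -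
        ∫ A, X B b (fun j => a' j + a'' j) A ^ 3 ∂(haarB B) +
        ∫ A, X B b a A ^ 3 ∂(haarB B) + ∫ A, X B b a' A ^ 3 ∂(haarB B) +
        ∫ A, X B b a'' A ^ 3 ∂(haarB B)) := by
  have hc := cont_X B b a
  have hc' := cont_X B b a'
  have hc'' := cont_X B b a''
  have hd := cont_X B b (fun j => a j + a' j + a'' j)
  have hd1 := cont_X B b (fun j => a j + a' j)
  have hd2 := cont_X B b (fun j => a j + a'' j)
  have hd3 := cont_X B b (fun j => a' j + a'' j)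
  rw [← integral_sub (int_cont B (by fun_prop)) (int_cont B (by fun_prop)),
    ← integral_sub (int_cont B (by fun_prop)) (int_cont B (by fun_prop)),
    ← integral_sub (int_cont B (by fun_prop)) (int_cont B (by fun_prop)),
    ← integral_add (int_cont B (by fun_prop)) (int_cont B (by fun_prop)),
    ← integral_add (int_cont B (by fun_prop)) (int_cont B (by fun_prop)),
    ← integral_add (int_cont B (by fun_prop)) (int_cont B (by fun_prop)),
    ← integral_const_mul]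
  refine integral_congr_ae (Filter.Eventually.of_forall fun A => ?_)
  have h3 : X B b (fun j => a j + a' j + a'' j) A = X B b a A + X B b a' A + X B b a'' A := by
    rw [X_add B b (fun j => a j + a' j) a'' A, X_add]
  simp only [h3, X_add]
  ring

/-- MO5. -/
theorem mo5 (mo2 : MO2Stmt) : MO5Stmt := by
  intro n B b hb a a' a''
  have hβ : (0 : ℝ) < (B.card : ℝ) := by
    exact_mod_cast Finset.card_pos.2 ⟨b, hb⟩
  refine ⟨(pure mo2 B hb a).1, ?_, ?_⟩
  · change ∫ A, X B b a A * X B b a' A ∂(haarB B) = _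
    rw [mix2, (pure mo2 B hb _).2.1, (pure mo2 B hb a).2.1, (pure mo2 B hb a').2.1]
    have h1 : ∑ j ∈ B, (a j + a' j) ^ 2 =
        ∑ j ∈ B, a j ^ 2 + 2 * ∑ j ∈ B, a j * a' j + ∑ j ∈ B, a' j ^ 2 := by
      rw [Finset.mul_sum, ← Finset.sum_add_distrib, ← Finset.sum_add_distrib]
      exact Finset.sum_congr rfl fun j _ => by ring
    rw [h1, Finset.sum_add_distrib]
    field_simp
    ring
  · change ∫ A, X B b a A * X B b a' A * X B b a'' A ∂(haarB B) = _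
    rw [mix3]
    simp only [(pure mo2 B hb _).2.2]
    have h2 : ∀ x y : Fin n → ℝ, ∑ j ∈ B, (x j + y j) ^ 2 =
        ∑ j ∈ B, x j ^ 2 + 2 * ∑ j ∈ B, x j * y j + ∑ j ∈ B, y j ^ 2 := by
      intro x y
      rw [Finset.mul_sum, ← Finset.sum_add_distrib, ← Finset.sum_add_distrib]
      exact Finset.sum_congr rfl fun j _ => by ring
    have h3 : ∀ x y : Fin n → ℝ, ∑ j ∈ B, (x j + y j) ^ 3 =
        ∑ j ∈ B, x j ^ 3 + 3 * ∑ j ∈ B, x j ^ 2 * y j + 3 * ∑ j ∈ B, x j * y j ^ 2 +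
          ∑ j ∈ B, y j ^ 3 := by
      intro x y
      rw [Finset.mul_sum, Finset.mul_sum, ← Finset.sum_add_distrib, ← Finset.sum_add_distrib,
        ← Finset.sum_add_distrib]
      exact Finset.sum_congr rfl fun j _ => by ring
    have h4 : ∑ j ∈ B, (a j + a' j + a'' j) ^ 2 =
        ∑ j ∈ B, a j ^ 2 + ∑ j ∈ B, a' j ^ 2 + ∑ j ∈ B, a'' j ^ 2 +
          2 * ∑ j ∈ B, a j * a' j + 2 * ∑ j ∈ B, a j * a'' j + 2 * ∑ j ∈ B, a' j * a'' j := by
      rw [Finset.mul_sum, Finset.mul_sum, Finset.mul_sum, ← Finset.sum_add_distrib,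
        ← Finset.sum_add_distrib, ← Finset.sum_add_distrib, ← Finset.sum_add_distrib,
        ← Finset.sum_add_distrib]
      exact Finset.sum_congr rfl fun j _ => by ring
    have h5 : ∑ j ∈ B, (a j + a' j + a'' j) ^ 3 =
        ∑ j ∈ B, a j ^ 3 + ∑ j ∈ B, a' j ^ 3 + ∑ j ∈ B, a'' j ^ 3 +
          3 * ∑ j ∈ B, a j ^ 2 * a' j + 3 * ∑ j ∈ B, a j * a' j ^ 2 +
          3 * ∑ j ∈ B, a j ^ 2 * a'' j + 3 * ∑ j ∈ B, a j * a'' j ^ 2 +
          3 * ∑ j ∈ B, a' j ^ 2 * a'' j + 3 * ∑ j ∈ B, a' j * a'' j ^ 2 +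
          6 * ∑ j ∈ B, a j * a' j * a'' j := by
      rw [Finset.mul_sum, Finset.mul_sum, Finset.mul_sum, Finset.mul_sum, Finset.mul_sum,
        Finset.mul_sum, Finset.mul_sum, ← Finset.sum_add_distrib, ← Finset.sum_add_distrib,
        ← Finset.sum_add_distrib, ← Finset.sum_add_distrib, ← Finset.sum_add_distrib,
        ← Finset.sum_add_distrib, ← Finset.sum_add_distrib, ← Finset.sum_add_distrib,
        ← Finset.sum_add_distrib]
      exact Finset.sum_congr rfl fun j _ => by ring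
    rw [h4, h5, h2 a a', h2 a a'', h2 a' a'', h3 a a', h3 a a'', h3 a' a'']
    simp only [Finset.sum_add_distrib]
    generalize (∑ j ∈ B, a j) = s
    generalize (∑ j ∈ B, a' j) = s'
    generalize (∑ j ∈ B, a'' j) = s''
    field_simp
    ring

end Pool.Agent.BSE.H34
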